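import Mathlib
import Pool.Agent.Helper986.RatVA.Final

set_option autoImplicit false

namespace Pool.Agent.Results.MP_7f70a7_al.RatIntersection

/-- A finitely generated solvable group in which the intersection of any two rational subsets is
rational is virtually abelian. A subset is rational if it is the set of values (products of words) of
some regular expression over `G`. -/
theorem result :
    ∀ (G : Type) [Group G], Group.FG G → Group.IsSolvable G →
      (∀ S T : Set G,
        (∃ r : RegularExpression G, S = {g : G | ∃ w ∈ r.matches', w.prod = g}) →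
        (∃ r : RegularExpression G, T = {g : G | ∃ w ∈ r.matches', w.prod = g}) →
        ∃ r : RegularExpression G, S ∩ T = {g : G | ∃ w ∈ r.matches', w.prod = g}) →
      ∃ H : Subgroup G, H.FiniteIndex ∧ ∀ a ∈ H, ∀ b ∈ H, a * b = b * a := by
  intro G _ hfg hsolv hinter
  have hI : RatVA.PropI G := by
    intro X Y hX hY
    rw [RatVA.isRat_iff] at hX hY ⊢
    exact hinter X Y hX hY
  obtain ⟨H, hH, hab⟩ := RatVA.va_of_propI hI hfg hsolv
  exact ⟨H, ⟨hH⟩, hab⟩

end Pool.Agent.Results.MP_7f70a7_al.RatIntersection
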